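import Mathlib
import Pool.Agent.Helper277.Zel.Main
import Pool.Agent.Helper277.ZG.H94.ZelGroup

set_option autoImplicit false
namespace Pool.Agent.Helper277

theorem zelLie : ZG.H94.ZelGroup.ZelLie := fun n => Zel.zelmanov_global n

end Pool.Agent.Helper277
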